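import Pool.Agent.Lib.H76T.TF2

/-!
# Monodromy groups generated by the conjugates of one Hodge-Tate cocharacter: abelian varieties
# of types I and II

`V = ℚ^ι` is a vector space with a nondegenerate alternating form of Gram matrix `ψ`, `D` is an
algebra of endomorphisms of `V`, `G` is a group (the absolute Galois group of a number field `F`)
and `ρ l : G → GL(V ⊗ ℚ_l)`, one for each prime `l`, are representations by `D`-linear symplectic
similitudes (the rational Tate modules of an abelian variety `A / F` whose endomorphisms over the
algebraic closure are defined over `F` and form the algebra `D`).  `M` is a number field and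
`e b ∈ D ⊗ M`, `b < m`, are self adjoint primitive idempotents, one in each simple factor of
`D ⊗ M` (`IsSplitting D ψ id e`).  So all simple factors of `A` are of type I or II in Albert's
classification; `M` is a splitting field of `D`, and the ranks `(e b).rank = 2 h` are twice the
relative dimensions: `h = g / [E : ℚ]` for type I, `h = g / (2 [E : ℚ])` for type II, if `A` is
isogenous to a power of a simple abelian variety of dimension `g` whose algebra has centre `E`.

## The hypotheses for all `l ∈ Λ` (`Λ` is the set of all primes except one)

* `sim`, `lin`, `semis`, `commt`: Weil pairing and the theorems of Faltings;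
* `mult`, `char`, `diag`, `hq`: the element `σ` (a Frobenius element at a place `v` of good
  reduction) has a characteristic polynomial over `ℚ` which does not depend on `l`, the multiplier
  `q` and is diagonalisable (Weil).

## The hypotheses for one prime `l₁ ∈ Λ`

`K` is the algebraic closure of `ℚ_{l₁}` and `L₁ ⊆ K` is a field containing `ℚ_{l₁}` and an image
of `M`.

* `torus`: every element of the identity component of the monodromy group which commutes with
  `ρ l₁ σ` is in the Zariski closure of the powers of `ρ l₁ σ` (Serre: true for all `v` in a set of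
  density one if the monodromy group is connected);
* `hh`, `h0`, `h1`, `hgen`: there is a projector `h ≠ 0, 1` such that the cocharacter
  `1 + (t - 1) h` has values in the monodromy group, and the conjugates of this cocharacter under
  `ρ l₁ (G)` and `Aut(K / L₁)` generate a group whose Zariski closure contains the image of a
  subgroup `H'` of finite index.

  The existence of `h` is known (Hodge, Tate, Faltings, Sen).  The generation by the conjugates
  of the Hodge-Tate cocharacter of ONE place above `l₁` is a true restriction; it is not known
  in general.  It is a theorem if `F = ℚ`, `A` is semistable and the product of the primes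
  `p ≠ l₁` where `A` has bad reduction is at most 22.  Indeed let `N` be the normal subgroup of
  the monodromy group which is generated by all conjugates of `h`.  A representation `W` of the
  quotient by `N` is semistable at `l₁` (in the sense of Fontaine) with all Hodge-Tate weights
  `0`, and the inertia group at `l₁` acts on `W` through a finite group by Sen's theorem, so
  trivially.  At the other bad primes `p` the inertia group acts unipotently, and so
  `ℚ(W / l₁^n)` has root discriminant less than the product of these primes.  Odlyzko's lower
  bound (4π exp(γ) = 22.38... in the limit) shows that the degrees are bounded, so the image of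
  the Galois group in the quotient by `N` is finite.  In this case the group is connected and all
  endomorphisms are defined over `ℚ`.  Moreover `L₁ = K` is allowed (so that there is no
  condition on `M`), because the decomposition group at `l₁` is the absolute Galois group of
  `ℚ_{l₁}` and its element `τ` maps `h`, up to conjugation by `ρ l₁ τ`, to its Galois conjugate;
* `num`: conditions on the ranks `n = (e b).rank`.
  - `power`: if `n = a ^ k` with `k ≥ 3` odd, either all subgroups of finite index have the
    same Zariski closure (the monodromy group is connected) and the conjugates of `h` under a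
    subgroup `Φ` of `Aut(K / L₁)` of index not divisible by `k` are conjugate to `h` under the
    identity component, or there is a unipotent `1 + N`, `N² = 0`, in the monodromy group such
    that `a ^ (k-1)` does not divide the rank of `N (e b)`.  The first alternative always holds in
    the situation described above (`L₁ = K`, `Φ = 1`);
  - `two`, `binom`: if `n = 2^m` with `m ≥ 5`, `m ≡ 1` or `2 mod 4` there is such an `N`
    with `rank N (e b) ≠ 0, n/4, n/2`; if `n = C(2k, k)` with `k ≥ 3` odd, there is one with
    `rank N (e b) ≠ 0, C(2k-2, k-1)`.  This is no condition for all other `n`.  For the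
    exceptional ones it holds if `A` has semistable reduction at some place prime to `l₁` and
    the relative toric rank `r / [E : ℚ]` (type I), `r / (2 [E : ℚ])` (type II) is different from
    these numbers.

## The conclusion

For all `l ∈ Λ` the monodromy group of every subgroup of finite index is the full group of
`D`-linear symplectic similitudes of `ψ`, so the problem has a positive answer for `A` (and the
Mumford-Tate conjecture holds for `A`).

So this holds for all semistable abelian varieties `A` over `ℚ` without factors of types III and
IV which have bad reduction at one prime only (or at several, such that their product without one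
of them is at most 22), if no relative dimension `h` satisfies `2h = 2^m`, `m ≥ 5`,
`m ≡ 1, 2 mod 4`, or `2h = C(2k, k)`, `k ≥ 3` odd; and for the exceptional ones if the toric rank is
not one of the numbers above.  For `D ≠ ℚ` and even `h ≥ 4` this is new.  (For type II over `ℚ` the
relative dimension `h` is always even, because `D` acts on the tangent space of `A`.)  Over
larger fields the assertion is false in general for even `h ≥ 4`: the Mumford-Tate group can be
smaller than the centralizer of `D`.

## The proof

No classification of Lie algebras is used.  The image `g` of the Lie algebra in a component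
`(e b) V` is analysed by Jordan pair methods if it is simple (`Pool.Agent.H49M.coreR`); if not, the
conjugates of `h` permute the simple factors transitively, there are `k` of them with `k` odd and
the dimension is a `k`-th power (`Orb.full`).  Different components are separated with the
method of Ribet (`Pool.Agent.H76RM`).  This gives the monodromy group at `l₁` (`full_one`).  Then
the torus condition shows that the roots of the characteristic polynomial of Frobenius are as
independent as possible (`indep_one`), and this implies the assertion for all other `l`, without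
Hodge-Tate theory (`full_other`).
-/

set_option autoImplicit false

namespace Pool.Agent.H76T.Kept.OneCocharacter

open Pool.Agent.H53Toric Pool.Agent.H49M Pool.Agent.H76T Matrix Polynomial
open Pool.Agent.H76U (IsSplitting)
open Pool.Agent.H76RM (spanK similD)

/-- Let `ψ` be a nondegenerate alternating form over `ℚ`, `D` a rational algebra of matrices, `M`
a number field, `e b` self adjoint primitive idempotents of `D ⊗ M`, one for each simple factor,
`G` a group and `ρ l`, `l` prime, a family of representations of `G` over `ℚ_l` by `D`-linear
symplectic similitudes of `ψ`, which satisfy the conditions explained above for the primes in `Λ`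
and, in addition, for the prime `l₁ ∈ Λ`.  Then for all `l` in `Λ` the algebraic monodromy group
of the restriction of `ρ l` to every subgroup of finite index is the group of `D`-linear
symplectic similitudes of `ψ`. -/
theorem result {ι : Type*} [Fintype ι] [DecidableEq ι] {ψ : Matrix ι ι ℚ} (hψ : ψᵀ = -ψ)
    (hψ0 : ψ.det ≠ 0) (D : Subalgebra ℚ (Matrix ι ι ℚ)) {M : Type*} [Field M] [NumberField M]
    {m : ℕ} (e : Fin m → Matrix ι ι M) (hspl : IsSplitting D ψ id e) {G : Type*} [Group G]
    (ρ : ∀ (l : ℕ) [Fact l.Prime], G →* Matrix.GeneralLinearGroup ι ℚ_[l]) (Λ : Set ℕ)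
    (lin : ∀ (l : ℕ) [Fact l.Prime], l ∈ Λ → ∀ σ : G, ∀ d ∈ D,
      (ρ l σ).1 * d.map (algebraMap ℚ ℚ_[l]) = d.map (algebraMap ℚ ℚ_[l]) * (ρ l σ).1)
    (sim : ∀ (l : ℕ) [Fact l.Prime], l ∈ Λ → ∀ σ : G, ∃ c : ℚ_[l],
      (ρ l σ).1ᵀ * ψ.map (algebraMap ℚ ℚ_[l]) * (ρ l σ).1 = c • ψ.map (algebraMap ℚ ℚ_[l]))
    (semis : ∀ (l : ℕ) [Fact l.Prime], l ∈ Λ → ∀ H : Subgroup G, H.FiniteIndex →
      ∀ W : Submodule (AlgebraicClosure ℚ_[l]) (ι → AlgebraicClosure ℚ_[l]),
      (∀ s ∈ img (AlgebraicClosure ℚ_[l]) (ρ l) H, ∀ w ∈ W, s *ᵥ w ∈ W) →
      ∃ W' : Submodule (AlgebraicClosure ℚ_[l]) (ι → AlgebraicClosure ℚ_[l]),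
        (∀ s ∈ img (AlgebraicClosure ℚ_[l]) (ρ l) H, ∀ w ∈ W', s *ᵥ w ∈ W') ∧ IsCompl W W')
    (commt : ∀ (l : ℕ) [Fact l.Prime], l ∈ Λ → ∀ H : Subgroup G, H.FiniteIndex →
      ∀ y : Matrix ι ι (AlgebraicClosure ℚ_[l]),
      (∀ s ∈ img (AlgebraicClosure ℚ_[l]) (ρ l) H, y * s = s * y) →
        y ∈ spanK (AlgebraicClosure ℚ_[l]) D)
    (σ : G) (q : ℚ) (hq : ∀ n : ℕ, n ≠ 0 → q ^ n ≠ 1) (F : ℚ[X])
    (mult : ∀ (l : ℕ) [Fact l.Prime], l ∈ Λ →
      (ρ l σ).1ᵀ * ψ.map (algebraMap ℚ ℚ_[l]) * (ρ l σ).1 =
        algebraMap ℚ ℚ_[l] q • ψ.map (algebraMap ℚ ℚ_[l]))
    (char : ∀ (l : ℕ) [Fact l.Prime], l ∈ Λ →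
      (ρ l σ).1.charpoly = F.map (algebraMap ℚ ℚ_[l]))
    (diag : ∀ (l : ℕ) [Fact l.Prime], l ∈ Λ →
      Diagonalisable ((ρ l σ).1.map (algebraMap ℚ_[l] (AlgebraicClosure ℚ_[l]))))
    (l₁ : ℕ) [Fact l₁.Prime] (hl₁ : l₁ ∈ Λ)
    (torus : TorusCond (AlgebraicClosure ℚ_[l₁]) (ρ l₁) σ)
    (L₁ : IntermediateField ℚ_[l₁] (AlgebraicClosure ℚ_[l₁])) (i : M →+* L₁)
    (h : Matrix ι ι (AlgebraicClosure ℚ_[l₁]))
    (hh : h ∈ hodgeProj (img (AlgebraicClosure ℚ_[l₁]) (ρ l₁) ⊤)) (h0 : h ≠ 0) (h1 : h ≠ 1)
    (H' : Subgroup G) (hH' : H'.FiniteIndex)
    (hgen : img (AlgebraicClosure ℚ_[l₁]) (ρ l₁) H' ⊆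
      zar (Submonoid.closure (cocharConj L₁ (AlgebraicClosure ℚ_[l₁]) (ρ l₁) h) :
        Set (Matrix ι ι (AlgebraicClosure ℚ_[l₁]))))
    (num : ∀ b, NumCond L₁ (AlgebraicClosure ℚ_[l₁]) (ρ l₁) h
      ((e b).map ((algebraMap L₁ (AlgebraicClosure ℚ_[l₁])).comp i)) (e b).rank) :
    ∀ (l : ℕ) [Fact l.Prime], l ∈ Λ → ∀ H : Subgroup G, H.FiniteIndex →
      monodromy (AlgebraicClosure ℚ_[l]) (ρ l) H = similD (AlgebraicClosure ℚ_[l]) ψ D :=
  finalT hψ hψ0 D e hspl ρ Λ lin sim semis commt σ q hq F mult char diag l₁ hl₁ torus L₁ i h hh h0
    h1 H' hH' hgen num

end Pool.Agent.H76T.Kept.OneCocharacter
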